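import Pool.Agent.Helper70.Lang.Stmts

/-!
Packet L2 of MP_c7dfba_nt: the polynomial `∑ b, (2c choose 2b) (2b choose b) (-t)^b` has a root
`t = s^2` in every real closed field (from: irreducible polynomials have degree at most two).
-/

namespace Helper32.Lang

open Polynomial Finset

universe v

/-- alternating sums of an antitone nonnegative sequence -/
theorem alt_sum (n : ℕ) : ∀ f : ℕ → ℚ, (∀ i, 0 ≤ f i) → (∀ i, f (i + 1) ≤ f i) →
    0 ≤ ∑ i ∈ range n, (-1) ^ i * f i ∧ ∑ i ∈ range n, (-1) ^ i * f i ≤ f 0 := by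
  induction n with
  | zero => intro f h0 _; simpa using h0 0
  | succ n ih =>
    intro f h0 h1
    obtain ⟨h2, h3⟩ := ih (fun i => f (i + 1)) (fun i => h0 _) (fun i => h1 _)
    rw [Finset.sum_range_succ']
    have : ∑ i ∈ range n, (-1 : ℚ) ^ (i + 1) * f (i + 1)
        = - ∑ i ∈ range n, (-1) ^ i * f (i + 1) := by
      rw [← Finset.sum_neg_distrib]
      exact Finset.sum_congr rfl (fun i _ => by ring)
    rw [this]
    have h4 := h1 0
    simp only [zero_add] at h3 h4
    constructor <;> simp <;> linarith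

/-- the coefficients -/
def cf (c b : ℕ) : ℕ := (2 * c).choose (2 * b) * (2 * b).choose b

theorem cf_rec (c b : ℕ) :
    (cf c (b + 1) : ℚ) * (b + 1) ^ 2 =
      cf c b * (((2 * c - 2 * b : ℕ) : ℚ) * ((2 * c - (2 * b + 1) : ℕ) : ℚ)) := by
  have h1 := Nat.choose_succ_right_eq (2 * c) (2 * b)
  have h2 := Nat.choose_succ_right_eq (2 * c) (2 * b + 1)
  have h3 := Nat.succ_mul_centralBinom_succ b
  unfold cf
  rw [show 2 * (b + 1) = 2 * b + 1 + 1 by ring]
  rw [Nat.centralBinom, Nat.centralBinom, show 2 * (b + 1) = 2 * b + 1 + 1 by ring] at h3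
  have h1' : (((2 * c).choose (2 * b + 1) : ℕ) : ℚ) * (2 * b + 1) =
    (2 * c).choose (2 * b) * ((2 * c - 2 * b : ℕ) : ℚ) := by exact_mod_cast h1
  have h2' : (((2 * c).choose (2 * b + 1 + 1) : ℕ) : ℚ) * (2 * b + 1 + 1) =
    (2 * c).choose (2 * b + 1) * ((2 * c - (2 * b + 1) : ℕ) : ℚ) := by exact_mod_cast h2
  have h3' : ((b : ℚ) + 1) * ((2 * b + 1 + 1).choose (b + 1) : ℕ) =
    2 * (2 * b + 1) * ((2 * b).choose b : ℕ) := by exact_mod_cast h3
  have h4 : (2 * (2 * (b : ℚ) + 1)) ≠ 0 := by positivity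
  apply mul_left_cancel₀ h4
  push_cast
  calc 2 * (2 * (b : ℚ) + 1) * (((2 * c).choose (2 * b + 1 + 1) : ℚ) *
        ((2 * b + 1 + 1).choose (b + 1) : ℚ) * (b + 1) ^ 2)
      = (2 * (b : ℚ) + 1) * (((2 * c).choose (2 * b + 1 + 1) : ℚ) * (2 * b + 1 + 1)) *
        (((b : ℚ) + 1) * ((2 * b + 1 + 1).choose (b + 1) : ℚ)) := by ring
    _ = (2 * (b : ℚ) + 1) * ((2 * c).choose (2 * b + 1) * ((2 * c - (2 * b + 1) : ℕ) : ℚ)) *
        (2 * (2 * b + 1) * ((2 * b).choose b : ℚ)) := by rw [h2', h3']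
    _ = 2 * (2 * (b : ℚ) + 1) * ((2 * c).choose (2 * b + 1) * (2 * b + 1)) *
        (((2 * c - (2 * b + 1) : ℕ) : ℚ) * ((2 * b).choose b : ℚ)) := by ring
    _ = _ := by rw [h1']; ring

theorem g_neg (c : ℕ) (hc : 1 ≤ c) :
    ∑ b ∈ range (c + 1), (cf c b : ℚ) * (-(1 / (c * (2 * c - 1) : ℚ))) ^ b < 0 := by
  have hc' : (1 : ℚ) ≤ c := by exact_mod_cast hc
  set t : ℚ := 1 / (c * (2 * c - 1) : ℚ) with ht
  have hD : (0 : ℚ) < c * (2 * c - 1) := by nlinarith
  have ht0 : 0 < t := by positivity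
  have htD : t * (c * (2 * c - 1)) = 1 := by rw [ht]; exact one_div_mul_cancel hD.ne'
  set a : ℕ → ℚ := fun b => (cf c b : ℚ) * t ^ b with ha
  have ha0 : ∀ b, 0 ≤ a b := fun b => by simp only [ha]; positivity
  -- the recursion
  have hrec : ∀ b, a (b + 1) * (b + 1) ^ 2 =
      a b * (t * (((2 * c - 2 * b : ℕ) : ℚ) * ((2 * c - (2 * b + 1) : ℕ) : ℚ))) := by
    intro b
    simp only [ha]
    calc (cf c (b + 1) : ℚ) * t ^ (b + 1) * (b + 1) ^ 2
        = ((cf c (b + 1) : ℚ) * (b + 1) ^ 2) * t ^ (b + 1) := by ring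
      _ = _ := by rw [cf_rec]; ring
  have hle : ∀ b, 1 ≤ b → t * (((2 * c - 2 * b : ℕ) : ℚ) * ((2 * c - (2 * b + 1) : ℕ) : ℚ)) < 4 := by
    intro b hb
    have h1 : ((2 * c - 2 * b : ℕ) : ℚ) ≤ 2 * c := by
      exact_mod_cast Nat.sub_le _ _
    have h2 : ((2 * c - (2 * b + 1) : ℕ) : ℚ) ≤ 2 * c - 1 := by
      rw [le_sub_iff_add_le]
      have : 2 * c - (2 * b + 1) + 1 ≤ 2 * c := by omega
      exact_mod_cast this
    have h3 : ((2 * c - 2 * b : ℕ) : ℚ) * ((2 * c - (2 * b + 1) : ℕ) : ℚ) ≤
        2 * c * (2 * c - 1) := by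
      apply mul_le_mul h1 h2 (by positivity) (by positivity)
    calc t * (((2 * c - 2 * b : ℕ) : ℚ) * ((2 * c - (2 * b + 1) : ℕ) : ℚ))
        ≤ t * (2 * c * (2 * c - 1)) := mul_le_mul_of_nonneg_left h3 ht0.le
      _ = 2 := by rw [show t * (2 * c * (2 * c - 1)) = 2 * (t * (c * (2 * c - 1))) by ring, htD]
                  norm_num
      _ < 4 := by norm_num
  have hanti : ∀ b, 1 ≤ b → a (b + 1) ≤ a b := by
    intro b hb
    have h1 := hrec b
    have h2 := hle b hb
    have h3 : (4 : ℚ) ≤ (b + 1) ^ 2 := by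
      have : (1 : ℚ) ≤ b := by exact_mod_cast hb
      nlinarith
    have h4 : a (b + 1) * 4 ≤ a b * 4 := by
      calc a (b + 1) * 4 ≤ a (b + 1) * (b + 1) ^ 2 := mul_le_mul_of_nonneg_left h3 (ha0 _)
        _ = _ := h1
        _ ≤ a b * 4 := mul_le_mul_of_nonneg_left h2.le (ha0 _)
    linarith
  have ha_0 : a 0 = 1 := by simp [ha, cf]
  have ha_1 : a 1 = 2 := by
    have := hrec 0
    rw [ha_0] at this
    have h5 : ((2 * c - (2 * 0 + 1) : ℕ) : ℚ) = 2 * c - 1 := by
      rw [Nat.cast_sub (by omega)]; push_cast; ring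
    rw [h5] at this
    have h6 : ((2 * c - 2 * 0 : ℕ) : ℚ) = 2 * c := by rw [Nat.mul_zero, Nat.sub_zero]; push_cast; ring
    rw [h6] at this
    simp only [zero_add, Nat.cast_zero, one_pow, mul_one, one_mul] at this
    rw [this, show t * (2 * c * (2 * c - 1)) = 2 * (t * (c * (2 * c - 1))) by ring, htD]
    norm_num
  have ha_2 : a 2 < 1 := by
    have h1 := hrec 1
    have h2 : t * (((2 * c - 2 * 1 : ℕ) : ℚ) * ((2 * c - (2 * 1 + 1) : ℕ) : ℚ)) < 2 := by
      rcases Nat.lt_or_ge c 2 with h | h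
      · have : c = 1 := by omega
        subst this
        simp
      · have e1 : ((2 * c - 2 * 1 : ℕ) : ℚ) = 2 * c - 2 := by
          rw [Nat.cast_sub (by omega)]; push_cast; ring
        have e2 : ((2 * c - (2 * 1 + 1) : ℕ) : ℚ) = 2 * c - 3 := by
          rw [Nat.cast_sub (by omega)]; push_cast; ring
        rw [e1, e2]
        have : (2 : ℚ) = t * (2 * c * (2 * c - 1)) := by
          rw [show t * (2 * c * (2 * c - 1)) = 2 * (t * (c * (2 * c - 1))) by ring, htD]
          norm_num
        rw [this]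
        rw [← this]
        nth_rewrite 4 [this]
        apply mul_lt_mul_of_pos_left _ ht0
        have : (2 : ℚ) ≤ c := by exact_mod_cast h
        nlinarith
    rw [ha_1] at h1
    have h3 : a (1 + 1) * ((1 : ℕ) + 1) ^ 2 < 4 := by
      rw [h1]; linarith
    norm_num at h3
    linarith
  have hsum : ∑ b ∈ range (c + 1), (cf c b : ℚ) * (-t) ^ b
      = ∑ b ∈ range (c + 1), (-1) ^ b * a b := by
    apply Finset.sum_congr rfl
    intro b _
    simp only [ha]
    rw [neg_pow]; ring
  rw [hsum]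
  obtain ⟨d, rfl⟩ : ∃ d, c = d + 1 := ⟨c - 1, by omega⟩
  rw [Finset.sum_range_succ', Finset.sum_range_succ']
  have h6 : ∑ k ∈ range d, (-1 : ℚ) ^ (k + 1 + 1) * a (k + 1 + 1)
      = ∑ k ∈ range d, (-1 : ℚ) ^ k * a (k + 2) := by
    apply Finset.sum_congr rfl
    intro k _
    rw [pow_succ, pow_succ]; ring
  rw [h6]
  have h7 := (alt_sum d (fun k => a (k + 2)) (fun i => ha0 _)
    (fun i => hanti (i + 2) (by omega))).2
  simp only [zero_add] at h7
  simp only [zero_add, pow_one, pow_zero, ha_0, ha_1]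
  linarith

section RC

variable {R : Type v} [Field R] [IsRealClosed R]

theorem not_sq_neg_one : ¬ IsSquare (-1 : R) := fun h =>
  IsSemireal.not_isSumSq_neg_one R h.isSumSq

theorem sq_add_one {a : R} (h : IsSumSq a) : 1 + a ≠ 0 :=
  IsSemireal.one_add_ne_zero h

/-- sums of squares are squares -/
theorem sumSq_isSquare {x : R} (h : IsSumSq x) : IsSquare x := by
  rcases IsRealClosed.isSquare_or_isSquare_neg x with h1 | h1
  · exact h1
  · by_cases hx : x = 0
    · rw [hx]; exact IsSquare.zero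
    · exfalso
      obtain ⟨w, hw⟩ := h1
      have hw0 : w ≠ 0 := by
        rintro rfl
        apply hx
        have : -x = 0 := by rw [hw]; ring
        simpa using this
      have h2 : IsSumSq (x * (w⁻¹ * w⁻¹)) := IsSumSq.mul h (IsSumSq.mul_self _)
      have h3 : x * (w⁻¹ * w⁻¹) = -1 := by
        have : x = - (w * w) := by rw [← hw]; ring
        rw [this]; field_simp
      rw [h3] at h2
      exact IsSemireal.not_isSumSq_neg_one R h2

theorem isSquare_add {x y : R} (hx : IsSquare x) (hy : IsSquare y) : IsSquare (x + y) :=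
  sumSq_isSquare (IsSumSq.add hx.isSumSq hy.isSumSq)

theorem isSquare_nat (n : ℕ) : IsSquare (n : R) := sumSq_isSquare (IsSumSq.natCast n)

theorem both_zero {x : R} (h1 : IsSquare x) (h2 : IsSquare (-x)) : x = 0 := by
  by_contra hx
  obtain ⟨u, hu⟩ := h1
  obtain ⟨w, hw⟩ := h2
  have hu0 : u ≠ 0 := by rintro rfl; exact hx (by rw [hu]; ring)
  apply not_sq_neg_one (R := R)
  refine ⟨w * u⁻¹, ?_⟩
  have : w * w = - (u * u) := by rw [← hw, hu]
  field_simp
  rw [pow_two, pow_two, this]

/-- irreducible quadratics have constant sign, and so have all polynomials without roots -/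
theorem const_sign (h : Helper70.Lang.Irr2.{v}) (p : R[X]) :
    (∀ x, p.eval x ≠ 0) → (∀ x, IsSquare (p.eval x)) ∨ (∀ x, IsSquare (-p.eval x)) := by
  induction p using UniqueFactorizationMonoid.induction_on_prime with
  | h₁ => intro h0; exact absurd (by simp) (h0 0)
  | h₂ u hu =>
    intro _
    obtain ⟨r, hr, rfl⟩ := Polynomial.isUnit_iff.mp hu
    simp only [eval_C]
    rcases IsRealClosed.isSquare_or_isSquare_neg r with h1 | h1
    · exact Or.inl (fun _ => h1)
    · exact Or.inr (fun _ => h1)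
  | h₃ p q hp0 hq ih =>
    intro h0
    have hp : ∀ x, p.eval x ≠ 0 := fun x hx => h0 x (by rw [eval_mul, hx, mul_zero])
    have hq1 : ∀ x, q.eval x ≠ 0 := fun x hx => h0 x (by rw [eval_mul, hx, zero_mul])
    have hqq : (∀ x, IsSquare (q.eval x)) ∨ (∀ x, IsSquare (-q.eval x)) := by
      have hirr : Irreducible q := hq.irreducible
      have hdeg := h R q hirr
      have hpos := hirr.natDegree_pos
      have h2 : q.natDegree = 2 := by
        by_contra hne
        have h1 : q.natDegree = 1 := by omega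
        obtain ⟨x, hx⟩ := IsRealClosed.exists_isRoot_of_odd_natDegree (f := q)
          (by rw [h1]; exact odd_one)
        exact hq1 x hx
      have heval : ∀ x, q.eval x = q.coeff 2 * x ^ 2 + q.coeff 1 * x + q.coeff 0 := by
        intro x
        rw [Polynomial.eval_eq_sum_range, h2]
        simp [Finset.sum_range_succ]
        ring
      set A := q.coeff 2
      set B := q.coeff 1
      set C' := q.coeff 0
      have hA : A ≠ 0 := by
        have : q.leadingCoeff ≠ 0 := by
          rw [Ne, Polynomial.leadingCoeff_eq_zero]; exact hirr.ne_zero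
        rwa [Polynomial.leadingCoeff, h2] at this
      have two : (2 : R) ≠ 0 := two_ne_zero
      set W := (4 * A * C' - B ^ 2) / (4 * A ^ 2) with hW
      have hform : ∀ x, q.eval x = A * ((x + B / (2 * A)) ^ 2 + W) := by
        intro x
        rw [heval, hW]
        field_simp
        ring
      have hWsq : IsSquare W := by
        rcases IsRealClosed.isSquare_or_isSquare_neg W with h1 | h1
        · exact h1
        · exfalso
          obtain ⟨w, hw⟩ := h1
          apply hq1 (w - B / (2 * A))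
          rw [hform]
          have : W = - (w * w) := by rw [← hw]; ring
          rw [this]; ring
      rcases IsRealClosed.isSquare_or_isSquare_neg A with h1 | h1
      · left
        intro x
        rw [hform]
        exact h1.mul (isSquare_add (IsSquare.sq _) hWsq)
      · right
        intro x
        rw [hform, ← neg_mul]
        exact h1.mul (isSquare_add (IsSquare.sq _) hWsq)
    rcases ih hp with h1 | h1 <;> rcases hqq with h2 | h2
    · left; intro x; rw [eval_mul]; exact (h2 x).mul (h1 x)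
    · right; intro x; rw [eval_mul, ← neg_mul]; exact (h2 x).mul (h1 x)
    · right; intro x; rw [eval_mul, ← mul_neg]; exact (h2 x).mul (h1 x)
    · left; intro x; rw [eval_mul, ← neg_mul_neg]; exact (h2 x).mul (h1 x)

end RC

theorem root (h : Helper70.Lang.Irr2.{v}) : Helper70.Lang.Root.{v} := by
  intro R _ _ c hc
  -- the polynomial
  set g : R[X] := ∑ b ∈ range (c + 1), C ((cf c b : ℕ) : R) * (-X) ^ b with hg
  have hge : ∀ x : R, g.eval x = ∑ b ∈ range (c + 1), ((cf c b : ℕ) : R) * (-x) ^ b := by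
    intro x
    rw [hg, Polynomial.eval_finsetSum]
    apply Finset.sum_congr rfl
    intro b _
    simp
  have hroot : ∃ t : R, g.eval t = 0 := by
    by_contra hno
    push Not at hno
    have h0 : g.eval 0 = 1 := by
      rw [hge, Finset.sum_range_succ']
      simp [cf]
    set q : ℚ := ∑ b ∈ range (c + 1), (cf c b : ℚ) * (-(1 / (c * (2 * c - 1) : ℚ))) ^ b with hq
    have hq0 : q < 0 := g_neg c hc
    have h1 : g.eval (((1 / (c * (2 * c - 1) : ℚ)) : ℚ) : R) = (q : R) := by
      rw [hge, hq]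
      push_cast
      rfl
    have h2 : IsSquare (-(q : R)) := by
      have hq1 : 0 < -q := by linarith
      have h3 : -(q : R) = ((-q : ℚ) : R) := by push_cast; ring
      rw [h3]
      set r := -q with hr
      have hnum : 0 < r.num := Rat.num_pos.mpr hq1
      have : (r : R) = ((r.num.toNat : ℕ) : R) * ((r.den : ℕ) : R) * ((r.den : R)⁻¹ * (r.den : R)⁻¹) := by
        have e1 : ((r.num.toNat : ℕ) : R) = ((r.num : ℤ) : R) := by
          have : ((r.num.toNat : ℕ) : ℤ) = r.num := Int.toNat_of_nonneg hnum.le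
          rw [← this, Int.cast_natCast, Int.toNat_natCast]
        have e2 : (r.den : R) ≠ 0 := by
          exact_mod_cast r.den_nz
        rw [e1, Rat.cast_def]
        field_simp
      rw [this]
      exact ((isSquare_nat _).mul (isSquare_nat _)).mul ⟨_, rfl⟩
    rcases const_sign h g hno with h3 | h3
    · have h4 := h3 (((1 / (c * (2 * c - 1) : ℚ)) : ℚ) : R)
      rw [h1] at h4
      have h5 := both_zero h4 h2
      rw [← h1] at h5
      exact hno _ h5
    · have h4 := h3 0
      rw [h0] at h4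
      exact not_sq_neg_one h4
  obtain ⟨t, ht⟩ := hroot
  rcases IsRealClosed.isSquare_or_isSquare_neg t with h1 | h1
  · obtain ⟨s, hs⟩ := h1
    refine ⟨s, ?_⟩
    rw [hge] at ht
    rw [← ht]
    apply Finset.sum_congr rfl
    intro b _
    rw [hs, cf]
    push_cast
    ring
  · exfalso
    obtain ⟨w, hw⟩ := h1
    rw [hge, Finset.sum_range_succ'] at ht
    rw [add_comm] at ht
    have h2 : ((cf c 0 : ℕ) : R) * (-t) ^ 0 = 1 := by simp [cf]
    rw [h2] at ht
    refine sq_add_one ?_ ht
    apply IsSumSq.sum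
    intro b _
    rw [hw]
    exact ((isSquare_nat _).mul (by
      rw [mul_pow]
      exact ⟨_, rfl⟩)).isSumSq

end Helper32.Lang
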